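import Pool.Agent.P.MP_27a476_gt.Main
import Pool.Agent.P.MP_27a476_gt.CtKirby
import Pool.Agent.P.MP_27a476_gt.CtLens
import Pool.Agent.P.MP_27a476_gt.CtCyc
import Pool.Agent.P.MP_27a476_gt.CtUniq

set_option autoImplicit false

open scoped Quaternion
open Pool.Agent.P.MP_27a476_gt

namespace Pool.Agent.Results.MP_27a476_gt.GrowthRateFails

theorem result :
    (∃ w, IsCCS w) ∧ ∀ w, IsCCS w → ∀ ε : ℤˣ,
      ∃ (m : ℕ) (c : Fin (m + 1) → ℝ) (d : Fin (m + 1) → ℚ),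
        c 0 = 0 ∧ Function.Injective (fun j => (c j : UnitAddCircle)) ∧
        Set.range (fun ρ => ε • cs w ![3, 3, -6] ρ) = Set.range (fun j => (c j : UnitAddCircle)) ∧
        HasExpansion (fun r => tau ![3, 3, -6] r / tau ![0] r) c d ∧
        ∃ j, ∀ ρ : Pi1 ![3, 3, -6] →* unitary ℍ[ℝ], ε • cs w ![3, 3, -6] ρ = c j →
          Module.Finite ℝ (groupCohomology (adRep ρ) 0) ∧
          Module.Finite ℝ (groupCohomology (adRep ρ) 1) ∧
          d j < ((Module.finrank ℝ (groupCohomology (adRep ρ) 1) : ℚ) -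
            Module.finrank ℝ (groupCohomology (adRep ρ) 0)) / 2 := by
  refine ⟨exists_ccs, fun w hw ε => ⟨5, fun j => (j : ℝ) / 6,
    ![3 / 2, -3 / 2, 1 / 2, 3 / 2, -3 / 2, 1 / 2], by simp, six_inj, cs_range hw ε, Z_expansion,
    1, fun ρ hρ => ⟨h0_finite ρ, h1_finite _ ρ, ?_⟩⟩⟩
  have h1 : (Module.finrank ℝ (groupCohomology (adRep ρ) 0) : ℚ) ≤ 2 := by
    exact_mod_cast h0_le hw ε ρ (by simpa using hρ)
  have h2 : (0 : ℚ) ≤ Module.finrank ℝ (groupCohomology (adRep ρ) 1) := Nat.cast_nonneg _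
  simp only [Matrix.cons_val]
  linarith

/-- Three surgery presentations of the 3-sphere have invariant 1. -/
theorem sphere (r : ℕ) (hr : 2 ≤ r) : tau ![] r = 1 ∧ tau ![1] r = 1 ∧ tau ![-1] r = 1 :=
  ⟨ck_empty r, ck_unit 1 (Or.inl rfl) hr, ck_unit (-1) (Or.inr rfl) hr⟩

/-- The invariant is multiplicative under connected sum. -/
theorem connected_sum {n : ℕ} (f : Fin n → ℤ) (r : ℕ) (hr : 2 ≤ r) :
    tau f r = ∏ i, tau ![f i] r :=
  ck_prod f hr

/-- The chain in `cs` is a cycle: coboundaries pair to zero. -/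
theorem cycle (K : unitary ℍ[ℝ] → unitary ℍ[ℝ] → UnitAddCircle) {n : ℕ} (f : Fin n → ℤ)
    (ρ : Pi1 f →* unitary ℍ[ℝ]) :
    cs (fun a b c => K b c - K (a * b) c + K a (b * c) - K a b) f ρ = 0 :=
  ct_cob K f ρ

/-- The value does not depend on the cocycle nor on the gauge. -/
theorem gauge {w w' : unitary ℍ[ℝ] → unitary ℍ[ℝ] → unitary ℍ[ℝ] → UnitAddCircle}
    (hw : IsCCS w) (hw' : IsCCS w') {n : ℕ} (f : Fin n → ℤ) (ρ ρ' : Pi1 f →* unitary ℍ[ℝ])
    (u : unitary ℍ[ℝ]) (h : ∀ g, ρ' g = u * ρ g * u⁻¹) : cs w' f ρ' = cs w f ρ := by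
  rw [ct_indep hw hw', ← ct_conj hw' f ρ u]
  exact congrArg _ (MonoidHom.ext h)

/-- The exponents are determined by the sequence and the phases. -/
theorem unique {m : ℕ} (Z : ℕ → ℂ) (c : Fin (m + 1) → ℝ) (d d' : Fin (m + 1) → ℚ)
    (hc : Function.Injective fun j => (c j : UnitAddCircle))
    (h : HasExpansion Z c d) (h' : HasExpansion Z c d') : d = d' :=
  ct_unique hc h h'

/-- Control: with the same definitions the conjectured formula holds for every lens space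
`L(p,1)` (a known case). -/
theorem lens (p : ℕ) (hp : 0 < p) (w) (hw : IsCCS w) :
    ∃ (m : ℕ) (c : Fin (m + 1) → ℝ) (d : Fin (m + 1) → ℚ),
      c 0 = 0 ∧ Function.Injective (fun j => (c j : UnitAddCircle)) ∧
      Set.range (fun ρ => -cs w ![(p : ℤ)] ρ) = Set.range (fun j => (c j : UnitAddCircle)) ∧
      HasExpansion (fun r => tau ![(p : ℤ)] r / tau ![0] r) c d ∧
      ∀ j, (∃ ρ : Pi1 ![(p : ℤ)] →* unitary ℍ[ℝ], -cs w ![(p : ℤ)] ρ = c j ∧
          d j = ((Module.finrank ℝ (groupCohomology (adRep ρ) 1) : ℚ) -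
            Module.finrank ℝ (groupCohomology (adRep ρ) 0)) / 2) ∧
        ∀ ρ : Pi1 ![(p : ℤ)] →* unitary ℍ[ℝ], -cs w ![(p : ℤ)] ρ = c j →
          ((Module.finrank ℝ (groupCohomology (adRep ρ) 1) : ℚ) -
            Module.finrank ℝ (groupCohomology (adRep ρ) 0)) / 2 ≤ d j := by
  obtain ⟨m, c, d, h0, h1, h2, h3, h4⟩ := ct_lens p hp hw
  exact ⟨m, c, d, h0, h1, h2, h3, fun j => ⟨(h4 j).1, fun ρ h => (h4 j).2 ⟨ρ, h, rfl⟩⟩⟩

end Pool.Agent.Results.MP_27a476_gt.GrowthRateFails
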