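import Pool.Agent.P.MP_27a476_gt.PrExp
import Pool.Agent.P.MP_27a476_gt.CtSpace
import Pool.Agent.P.MP_27a476_gt.CtSlide
import Pool.Agent.P.MP_27a476_gt.CtClassS
import Pool.Agent.P.MP_27a476_gt.CtUniq

set_option autoImplicit false

open scoped Quaternion
open Pool.Agent.P.MP_27a476_gt

namespace Pool.Agent.Results.MP_27a476_gt.SphericalPrism

theorem result :
    Nat.card (PiS ![2, 2, -7, 1, 1, 1]) = 756 ∧
    (∀ ρ : PiS ![2, 2, -7, 1, 1, 1] →* unitary ℍ[ℝ],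
      Subsingleton (groupCohomology (adRep ρ) 1)) ∧
    (∃ w, IsCCS w) ∧
    ∃ l l' : PiS ![2, 2, -7, 1, 1, 1] →* unitary ℍ[ℝ],
      (∀ g x, l g * x * (l' g)⁻¹ = x → g = 1) ∧ ∀ w, IsCCS w →
      csS w ![2, 2, -7, 1, 1, 1] l - csS w ![2, 2, -7, 1, 1, 1] l' =
        ((1 / 756 : ℝ) : UnitAddCircle) ∧
      ∃ (m : ℕ) (c : Fin (m + 1) → ℝ) (d : Fin (m + 1) → ℚ),
        c 0 = 0 ∧ Function.Injective (fun j => (c j : UnitAddCircle)) ∧
        Set.range (csS w ![2, 2, -7, 1, 1, 1]) = Set.range (fun j => (c j : UnitAddCircle)) ∧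
        HasExpansion (fun r => tauS ![2, 2, -7, 1, 1, 1] r / tauS ![] r) c d ∧
        ∃ j, c j = 1 / 12 ∧ d j = -3 / 2 ∧
          ∀ ρ : PiS ![2, 2, -7, 1, 1, 1] →* unitary ℍ[ℝ], csS w ![2, 2, -7, 1, 1, 1] ρ = c j →
            Module.finrank ℝ (groupCohomology (adRep ρ) 0) = 1 := by
  have := finite_pi
  have e : ((nn (1 : Fin 25) : ℝ) / 756 : ℝ) = 1 / 12 := by
    rw [show nn (1 : Fin 25) = 63 from rfl]
    norm_num
  obtain ⟨h0, l, l', h1, h2⟩ := cq_space'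
  exact ⟨h0, fun ρ => h1_zero _, exists_ccs, l, l', h1, fun w hw => ⟨h2 w hw, 24,
    fun j => (nn j : ℝ) / 756, fun j => ex j, by simp [nn], nn_inj, prism_range hw,
    prism_expansion, 1, e, rfl, fun ρ h => h0_one hw ρ (e ▸ h)⟩⟩

/-- Surgery on the Hopf link with framings `0`, `a` is the 3-sphere. -/
theorem sphere (a : ℤ) (r : ℕ) (hr : 2 ≤ r) : tauS ![a] r = 1 :=
  ck_hopf a hr

/-- Handle slide: the chain with framings `a`, `0`, `b` depends only on `a + b`. -/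
theorem slide (a b a' b' : ℤ) (ha : a ≠ 0) (hb : b ≠ 0) (ha' : a' ≠ 0) (hb' : b' ≠ 0)
    (h : a + b = a' + b') (r : ℕ) : tauS ![a, b] r = tauS ![a', b'] r := by
  rw [ck_slide ha hb, ck_slide ha' hb', h]

/-- Blowing up and down: a pair of meridians with framings `1`, `-1` can be removed. -/
theorem cancel {n : ℕ} (f : Fin n → ℤ) (g : Fin (n + 2) → ℤ) (h : ∀ i, g i.succ.succ = f i)
    (h0 : g 0 = 1) (h1 : g 1 = -1) (r : ℕ) : tauS g r = tauS f r :=
  ck_cancel' f g h h0 h1 r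

/-- The chain in `csS` is a cycle: coboundaries pair to zero. -/
theorem cycle (K : unitary ℍ[ℝ] → unitary ℍ[ℝ] → UnitAddCircle) {n : ℕ} (f : Fin n → ℤ)
    (ρ : PiS f →* unitary ℍ[ℝ]) :
    csS (fun a b c => K b c - K (a * b) c + K a (b * c) - K a b) f ρ = 0 :=
  ct_cobS K f ρ

/-- The value does not depend on the cocycle nor on the gauge. -/
theorem gauge (w w') (hw : IsCCS w) (hw' : IsCCS w') {n : ℕ} (f : Fin n → ℤ)
    (ρ ρ' : PiS f →* unitary ℍ[ℝ]) (u : unitary ℍ[ℝ]) (h : ∀ g, ρ' g = u * ρ g * u⁻¹) :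
    csS w' f ρ' = csS w f ρ := by
  rw [ct_indepS hw hw', ← ct_conjS hw' f ρ u]
  exact congrArg _ (MonoidHom.ext h)

/-- The exponents are determined by the sequence and the phases. -/
theorem unique {m : ℕ} (Z : ℕ → ℂ) (c : Fin (m + 1) → ℝ) (d d' : Fin (m + 1) → ℚ)
    (hc : Function.Injective fun j => (c j : UnitAddCircle))
    (h : HasExpansion Z c d) (h' : HasExpansion Z c d') : d = d' :=
  ct_unique hc h h'

/-- Control: with the same definitions the conjectured formula holds for two meridians, that is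
for the lens spaces `L(a + b, 1)` (a known case). -/
theorem lens (a b : ℤ) (ha : a ≠ 0) (hb : b ≠ 0) (hp : 0 < a + b) (w) (hw : IsCCS w) :
    ∃ (m : ℕ) (c : Fin (m + 1) → ℝ) (d : Fin (m + 1) → ℚ),
      c 0 = 0 ∧ Function.Injective (fun j => (c j : UnitAddCircle)) ∧
      Set.range (csS w ![a, b]) = Set.range (fun j => (c j : UnitAddCircle)) ∧
      HasExpansion (fun r => tauS ![a, b] r / tauS ![] r) c d ∧
      ∀ j, (∃ ρ : PiS ![a, b] →* unitary ℍ[ℝ], csS w ![a, b] ρ = c j ∧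
          d j = ((Module.finrank ℝ (groupCohomology (adRep ρ) 1) : ℚ) -
            Module.finrank ℝ (groupCohomology (adRep ρ) 0)) / 2) ∧
        ∀ ρ : PiS ![a, b] →* unitary ℍ[ℝ], csS w ![a, b] ρ = c j →
          ((Module.finrank ℝ (groupCohomology (adRep ρ) 1) : ℚ) -
            Module.finrank ℝ (groupCohomology (adRep ρ) 0)) / 2 ≤ d j := by
  obtain ⟨m, c, d, h0, h1, h2, h3, h4⟩ := cj_lens ha hb hp hw
  exact ⟨m, c, d, h0, h1, h2, h3, fun j => ⟨(h4 j).1, fun ρ h => (h4 j).2 ⟨ρ, h, rfl⟩⟩⟩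

end Pool.Agent.Results.MP_27a476_gt.SphericalPrism
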